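import Pool.Agent.Helper22.MI.Stmts0

set_option autoImplicit false

/-! Module AUE: a basis with coordinates at most one. -/

namespace Pool.Agent.Helper22.MI

open Finset

theorem st_AUE : ST_AUE := by
  classical
  intro ι _ k v
  obtain ⟨j, hj, f, hf1, hf2, hf3⟩ :
      ∃ j, j = Module.finrank ℝ (Submodule.span ℝ (Set.range v)) ∧ ∃ f : Fin j → Fin k → ℝ,
        (∀ i, f i ∈ Set.range v) ∧
        Submodule.span ℝ (Set.range f) = Submodule.span ℝ (Set.range v) ∧
        LinearIndependent ℝ f := by
    obtain ⟨f, hf1, hf2, hf3⟩ := Submodule.exists_fun_fin_finrank_span_eq ℝ (Set.range v)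
    exact ⟨_, rfl, f, hf1, hf2, hf3⟩
  choose s0 hs0 using hf1
  have hs0f : (fun l => v (s0 l)) = f := funext hs0
  have hmem : ∀ a, v a ∈ Submodule.span ℝ (Set.range v) := fun a =>
    Submodule.subset_span ⟨a, rfl⟩
  have hcard : Fintype.card (Fin j) = Module.finrank ℝ (Submodule.span ℝ (Set.range v)) := by
    rw [Fintype.card_fin, hj]
  let vV : ι → Submodule.span ℝ (Set.range v) := fun a => ⟨v a, hmem a⟩
  -- a basis of the span
  have hli0 : LinearIndependent ℝ (fun l => vV (s0 l)) := by
    rw [← hs0f] at hf3
    refine LinearIndependent.of_comp (Submodule.span ℝ (Set.range v)).subtype ?_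
    exact hf3
  let B : Module.Basis (Fin j) ℝ (Submodule.span ℝ (Set.range v)) :=
    basisOfLinearIndependentOfCardEqFinrank' _ hli0 hcard
  have hne : Nonempty (Fin j → ι) := ⟨s0⟩
  obtain ⟨s, hs⟩ := Finite.exists_max (fun s : Fin j → ι => |B.det (fun l => vV (s l))|)
  have hB0 : B.det (fun l => vV (s0 l)) ≠ 0 := by
    have h1 : IsUnit (B.det (fun l => vV (s0 l))) := by
      have h2 : (fun l => vV (s0 l)) = B := by
        funext l
        simp [B]
      rw [h2]
      rw [Module.Basis.det_self]
      exact isUnit_one
    exact h1.ne_zero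
  have hsne : B.det (fun l => vV (s l)) ≠ 0 := by
    intro h
    have h1 := hs s0
    simp only [h, abs_zero] at h1
    exact hB0 (abs_eq_zero.mp (le_antisymm h1 (abs_nonneg _)))
  have hbas := (Module.Basis.is_basis_iff_det B (v := fun l => vV (s l))).mpr (isUnit_iff_ne_zero.mpr hsne)
  obtain ⟨hli, hsp⟩ := hbas
  refine ⟨j, s, ?_, ?_, ?_⟩
  · rw [hj]
    have h1 := Submodule.finrank_le (Submodule.span ℝ (Set.range v))
    simpa using h1
  · have h1 := hli.map' (Submodule.span ℝ (Set.range v)).subtype (by simp)
    exact h1
  · intro a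
    let b := Module.Basis.mk hli hsp.ge
    refine ⟨fun l => b.repr (vV a) l, ?_, ?_⟩
    · intro l
      have h1 := congrArg (fun φ => φ (vV a)) (B.det_smul_mk_coord_eq_det_update hli hsp.ge l)
      simp only [LinearMap.smul_apply, smul_eq_mul] at h1
      have h2 : B.det.toMultilinearMap.toLinearMap (fun l => vV (s l)) l (vV a)
          = B.det (fun l' => vV (Function.update s l a l')) := by
        show B.det (Function.update (fun l => vV (s l)) l (vV a)) = _
        congr 1
        funext l'
        by_cases h : l' = l
        · subst h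
          simp
        · simp [Function.update_of_ne h]
      rw [h2] at h1
      have h3 := hs (Function.update s l a)
      rw [← h1, abs_mul] at h3
      have h4 : 0 < |B.det (fun l => vV (s l))| := abs_pos.mpr hsne
      have h5 : (Module.Basis.mk hli hsp.ge).coord l (vV a) = b.repr (vV a) l := rfl
      rw [h5] at h3
      have h6 : |B.det (fun l => vV (s l))| * |b.repr (vV a) l|
          ≤ |B.det (fun l => vV (s l))| * 1 := by
        rw [mul_one]
        exact h3
      exact le_of_mul_le_mul_left h6 h4
    · intro i
      have h1 := b.sum_repr (vV a)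
      have h2 := congrArg (fun y : Submodule.span ℝ (Set.range v) => (y : Fin k → ℝ) i) h1
      simp only [Submodule.coe_sum, Submodule.coe_smul, Finset.sum_apply, Pi.smul_apply,
        smul_eq_mul] at h2
      have h3 : ∀ l, (b l : Fin k → ℝ) = v (s l) := by
        intro l
        have : b l = vV (s l) := by simp [b]
        rw [this]
      simp only [h3] at h2
      exact h2.symm

end Pool.Agent.Helper22.MI
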