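import Pool.Agent.Helper22.MI.Stmts0

set_option autoImplicit false

/-! Module DEN: a common denominator of the coordinates of the integer points. -/

namespace Pool.Agent.Helper22.MI

open Finset

theorem den_left (j k : ℕ) (w : Fin j → Fin k → ℤ)
    (h : LinearIndependent ℝ (fun (l : Fin j) (i : Fin k) => (w l i : ℝ))) :
    ∃ L : Fin j → Fin k → ℚ, ∀ l l', ∑ i, L l i * (w l' i : ℚ) = if l = l' then 1 else 0 := by
  classical
  have hQ : LinearIndependent ℚ (fun (l : Fin j) (i : Fin k) => (w l i : ℚ)) := by
    rw [Fintype.linearIndependent_iff] at h ⊢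
    intro c hc l
    have h1 := h (fun l => (c l : ℝ)) (by
      funext i
      have h2 := congrFun hc i
      simp only [Finset.sum_apply, Pi.smul_apply, smul_eq_mul, Pi.zero_apply] at h2 ⊢
      have h3 := congrArg (fun q : ℚ => (q : ℝ)) h2
      push_cast at h3
      exact h3) l
    exact_mod_cast h1
  have hinj : LinearMap.ker (Fintype.linearCombination ℚ
      (fun (l : Fin j) (i : Fin k) => (w l i : ℚ))) = ⊥ := by
    rw [LinearMap.ker_eq_bot']
    intro m hm
    rw [Fintype.linearIndependent_iff] at hQ
    funext l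
    refine hQ m ?_ l
    rw [Fintype.linearCombination_apply] at hm
    exact hm
  obtain ⟨g, hg⟩ := LinearMap.exists_leftInverse_of_injective _ hinj
  refine ⟨fun l i => g (Pi.single i 1) l, ?_⟩
  intro l l'
  have h1 : g (fun i => (w l' i : ℚ)) = Pi.single l' 1 := by
    have h2 := LinearMap.congr_fun hg (Pi.single l' 1)
    simp only [LinearMap.comp_apply, LinearMap.id_apply] at h2
    rw [← h2]
    congr 1
    rw [Fintype.linearCombination_apply]
    rw [Finset.sum_eq_single l']
    · simp
    · intro b _ hb
      simp [hb]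
    · intro h
      exact absurd (Finset.mem_univ _) h
  have h3 : (fun i => (w l' i : ℚ)) = ∑ i, (w l' i : ℚ) • (Pi.single i (1 : ℚ) : Fin k → ℚ) := by
    funext i
    simp [Finset.sum_apply, Pi.single_apply]
  rw [h3, map_sum] at h1
  have h4 := congrFun h1 l
  simp only [Finset.sum_apply, map_smul, Pi.smul_apply, smul_eq_mul, Pi.single_apply] at h4
  rw [← h4]
  exact Finset.sum_congr rfl fun i _ => mul_comm _ _

theorem st_DEN : ST_DEN := by
  classical
  intro j k w h
  obtain ⟨L, hL⟩ := den_left j k w h
  refine ⟨∏ l, ∏ i, (L l i).den, ?_, ?_⟩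
  · exact Finset.prod_pos fun l _ => Finset.prod_pos fun i _ => (L l i).den_pos
  intro z x hz
  -- the integer multiples of the entries
  have hint : ∀ l i, ∃ n : ℤ, (((∏ l, ∏ i, (L l i).den : ℕ) : ℤ) : ℚ) * L l i = n := by
    intro l i
    have h1 : (L l i).den ∣ ∏ l, ∏ i, (L l i).den :=
      dvd_trans (Finset.dvd_prod_of_mem (fun i => (L l i).den) (Finset.mem_univ i))
        (Finset.dvd_prod_of_mem (fun l => ∏ i, (L l i).den) (Finset.mem_univ l))
    obtain ⟨c, hc⟩ := h1
    refine ⟨c * (L l i).num, ?_⟩
    rw [hc]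
    push_cast
    have h2 : ((L l i).den : ℚ) * L l i = (L l i).num := by
      rw [mul_comm]
      exact Rat.mul_den_eq_num _
    rw [mul_comm ((L l i).den : ℚ) (c : ℚ), mul_assoc, h2]
  choose n hn using hint
  have hx : ∀ l, x l = ∑ i, (L l i : ℝ) * z i := by
    intro l
    simp only [hz]
    simp only [Finset.mul_sum]
    rw [Finset.sum_comm]
    have h1 : ∀ l', ∑ i, (L l i : ℝ) * (x l' * (w l' i : ℝ)) = x l' * if l = l' then 1 else 0 := by
      intro l'
      have h2 : ∑ i, (L l i : ℝ) * (w l' i : ℝ) = if l = l' then 1 else 0 := by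
        have h2 := congrArg (fun q : ℚ => (q : ℝ)) (hL l l')
        by_cases h : l = l'
        · simp only [h, if_true] at h2 ⊢
          push_cast at h2
          exact h2
        · simp only [h, if_false] at h2 ⊢
          push_cast at h2
          exact h2
      rw [← h2, Finset.mul_sum]
      exact Finset.sum_congr rfl fun i _ => by ring
    simp only [h1]
    simp
  refine ⟨fun l => ∑ i, n l i * z i, ?_⟩
  intro l
  rw [hx l, Finset.mul_sum]
  push_cast
  refine Finset.sum_congr rfl fun i _ => ?_
  have h1 := congrArg (fun q : ℚ => (q : ℝ)) (hn l i)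
  push_cast at h1
  rw [← mul_assoc, h1]

end Pool.Agent.Helper22.MI
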